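import Pool.Agent.R421.SF.Avg
import Pool.Agent.R421.Z8.Fin
import Pool.Agent.R421.Z12.Fin

/-!
# Project SF: the average over the box for the families with a point of order eight or twelve
-/

set_option autoImplicit false
set_option linter.all false

namespace Pool.Agent.R421.SF

section z8

open Finset Pool.Agent.W262.RK Pool.Agent.W307.RT Pool.Agent.R421.HF Pool.Agent.R421.UR
open Pool.Agent.W307.SE (SN Sel SN_nonneg)
open Pool.Agent.R421.Z8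

/-- the average over the box -/
theorem avg5S : ∃ α : ℝ, 0 < α ∧ α ≤ 1 ∧ ∃ C : ℝ, 0 ≤ C ∧ ∀ T : ℕ, 1 ≤ T →
    ∀ S : Finset (ℤ × ℤ), S ⊆ Box T → (∀ t ∈ S, IsCoprime t.1 t.2 ∧ ∀ j, F5 t.1 t.2 j ≠ 0) →
    ∑ t ∈ S, (SN (-t.1 ^ 4) (-(t.2 ^ 2 - t.1 ^ 2) ^ 2)) ^ α ≤ C * (T : ℝ) ^ 2 := by
  have hP0 : ∀ j κ, 0 ≤ P5 j κ := by
    intro j κ
    unfold P5
    split_ifs <;> norm_num
  have hQ0 : ∀ j κ, 0 ≤ Q5 j κ := by
    intro j κ
    unfold Q5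
    split_ifs <;> norm_num
  have hm := mdlG D5.cls ok5.cls3 D5.g D5.c 7 {1, -1, 2, -2} P5 Q5 (by decide) notsq hP0 hQ0
    (fun j p hp hz => gP5 j hp hz) (fun j p hp hz => gQ5 j hp hz) ok5.c1 D5.g_nonneg
    (fun j p => by rw [ok5.rs_eq]; exact_mod_cast ok5.nr_le j p)
  have a1 : ∀ j : Fin 5, 0 < P5 j 1 := by
    intro j
    rcases fin5 j with rfl | rfl | rfl | rfl | rfl <;> simp [P5]
  have a2 : ∀ j : Fin 5, 0 ≤ (P5 j 1 + Q5 j 1) / 2 := by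
    intro j
    have h1 := hP0 j 1
    have h2 := hQ0 j 1
    positivity
  have a3 : ∀ k : Fin 4, k ≠ 3 → Wc D5.cls (fun j => (P5 j 1 + Q5 j 1) / 2) k <
      Wo D5.cls (fun j => P5 j 1) - Wc D5.cls (fun j => P5 j 1) k := by
    intro k hk
    have e1 : ∀ f : Fin 5 → ℝ, Wc D5.cls f k = ∑ j, if c5 j = k then f j else 0 := by
      intro f
      unfold Wc
      rw [sum_filter]
      rfl
    have e2 : ∀ f : Fin 5 → ℝ, Wo D5.cls f = ∑ j, if c5 j ≠ 3 then f j else 0 := by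
      intro f
      unfold Wo
      rw [sum_filter]
      rfl
    rw [e1, e1, e2]
    simp only [Fin.sum_univ_five]
    have h4 : ∀ k : Fin 4, k ≠ 3 → k = 0 ∨ k = 1 ∨ k = 2 := by decide
    rcases h4 k hk with rfl | rfl | rfl
    · simp [c5, P5, Q5]
      norm_num
    · simp [c5, P5, Q5]
      norm_num
    · simp [c5, P5, Q5]
      norm_num
  exact avgSS D5 ok5 _ _ a1 a2 a3 hm



end z8

section z12

open Finset Pool.Agent.W262.RK Pool.Agent.W307.RT Pool.Agent.R421.HF Pool.Agent.R421.UR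
open Pool.Agent.W307.SE (SN Sel SN_nonneg)
open Pool.Agent.R421.Z12

theorem avg7S : ∃ α : ℝ, 0 < α ∧ α ≤ 1 ∧ ∃ C : ℝ, 0 ≤ C ∧ ∀ T : ℕ, 1 ≤ T →
    ∀ S : Finset (ℤ × ℤ), S ⊆ Box T → (∀ t ∈ S, IsCoprime t.1 t.2 ∧ ∀ j, F7 t.1 t.2 j ≠ 0) →
    ∑ t ∈ S, (SN (-(4 * t.1 ^ 3 * t.2) ^ 2)
        (-((t.2 ^ 2 - t.1 ^ 2) ^ 3 * (t.2 ^ 2 + 3 * t.1 ^ 2)))) ^ α ≤
      C * (T : ℝ) ^ 2 := by
  have hP0 : ∀ j κ, 0 ≤ P7 j κ := by
    intro j κ
    unfold P7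
    split_ifs <;> norm_num
  have hQ0 : ∀ j κ, 0 ≤ Q7 j κ := by
    intro j κ
    unfold Q7
    split_ifs
    · norm_num
    · norm_num
    · norm_num
    · exact hP0 j κ
  have hm := mdlG D7.cls ok7.cls3 D7.g D7.c 7 {1, -1, 3, -3} P7 Q7 (by decide) notsq hP0 hQ0
    (fun j p hp hz => gP7 j hp hz) (fun j p hp hz => gQ7 j hp hz) ok7.c1 D7.g_nonneg
    (fun j p => by rw [ok7.rs_eq]; exact_mod_cast ok7.nr_le j p)
  have a1 : ∀ j : Fin 7, 0 < P7 j 1 := by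
    intro j
    rcases fin7 j with rfl | rfl | rfl | rfl | rfl | rfl | rfl <;> simp [P7]
  have a2 : ∀ j : Fin 7, 0 ≤ (P7 j 1 + Q7 j 1) / 2 := by
    intro j
    have h1 := hP0 j 1
    have h2 := hQ0 j 1
    positivity
  have a3 : ∀ k : Fin 4, k ≠ 3 → Wc D7.cls (fun j => (P7 j 1 + Q7 j 1) / 2) k <
      Wo D7.cls (fun j => P7 j 1) - Wc D7.cls (fun j => P7 j 1) k := by
    intro k hk
    have e1 : ∀ f : Fin 7 → ℝ, Wc D7.cls f k = ∑ j, if c7 j = k then f j else 0 := by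
      intro f
      unfold Wc
      rw [sum_filter]
      rfl
    have e2 : ∀ f : Fin 7 → ℝ, Wo D7.cls f = ∑ j, if c7 j ≠ 3 then f j else 0 := by
      intro f
      unfold Wo
      rw [sum_filter]
      rfl
    rw [e1, e1, e2]
    simp only [Fin.sum_univ_seven]
    have h4 : ∀ k : Fin 4, k ≠ 3 → k = 0 ∨ k = 1 ∨ k = 2 := by decide
    rcases h4 k hk with rfl | rfl | rfl
    · simp [c7, P7, Q7]
      norm_num
    · simp [c7, P7, Q7]
      try norm_num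
    · simp [c7, P7, Q7]
      try norm_num
  exact avgSS D7 ok7 _ _ a1 a2 a3 hm



end z12

end Pool.Agent.R421.SF
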