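import Pool.Agent.R421.Z4.Rnk4
import Pool.Agent.Y669.SelA
import Pool.Agent.W307.SE.Fin
import Pool.Agent.W307.SE.Locp
import Pool.Agent.W407.SE.Ratp
import Pool.Agent.W405.SE.GoodP
import Pool.Agent.TH841.SH.Sel

/-!
# Project SF: the 2-Selmer group and the local count, with primes without a contribution
-/

set_option autoImplicit false
set_option linter.all false

namespace Pool.Agent.R421.SF

open Finset Pool.Agent.W262.RK Pool.Agent.W307.RT Pool.Agent.TH841.PT Pool.Agent.R421.HF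
open Pool.Agent.R421.UR
open Pool.Agent.W307.SE (SN Sel Loc LOCMP locmp_of GOODP SN_nonneg nd_mul jac_mulD val_mulD sq_tr)
open Pool.Agent.W571.RT (jac_sq)

section loc

variable {p : ℕ} [hp : Fact p.Prime]

lemma NeuM_tw {c : Fin 4} {A B D : ℤ} (hA0 : A ≠ 0) (hB0 : B ≠ 0) (hAB : A ≠ B)
    (hD : ¬ (p : ℤ) ∣ D) (hDj : jacobiSym D p = 1) (h : NeuM c p A B) :
    NeuM c p (A * D) (B * D) := by
  have hD0 : D ≠ 0 := by
    rintro rfl
    exact hD (dvd_zero _)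
  unfold NeuM at h ⊢
  split_ifs at h ⊢ with h0 h1
  · obtain ⟨a1, a2, a3, a4⟩ := h
    refine ⟨a1.mul_right _, nd_mul a2 hD, ?_, ?_⟩
    · rw [val_mulD hA0 hD]
      exact a3
    · rw [show -(B * D) = (-B) * D by ring, jac_mulD hDj]
      exact a4
  · obtain ⟨a1, a2, a3, a4⟩ := h
    refine ⟨a1.mul_right _, nd_mul a2 hD, ?_, ?_⟩
    · rw [val_mulD hB0 hD]
      exact a3
    · rw [show -(A * D) = (-A) * D by ring, jac_mulD hDj]
      exact a4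
  · obtain ⟨a1, a2, a3, a4⟩ := h
    have e : A * D - B * D = (A - B) * D := by ring
    refine ⟨?_, nd_mul a2 hD, ?_, ?_⟩
    · rw [e]
      exact a1.mul_right _
    · rw [e, val_mulD (sub_ne_zero.2 hAB) hD]
      exact a3
    · rw [jac_mulD hDj]
      exact a4

/-- a squarefree integer with an even valuation -/
lemma nd_of_even {x : ℚ} (hx : x ≠ 0) (he : Even (padicValRat p x)) {d : ℤ} (hd : Squarefree d)
    (h : IsSquare (((x : ℚ) : ℚ_[p]) * d)) : ¬ (p : ℤ) ∣ d := by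
  rw [← Pool.Agent.W612.SE.even_val d hd p hp.out]
  obtain ⟨r, hr⟩ := h
  have hd0 : (d : ℚ) ≠ 0 := by exact_mod_cast hd.ne_zero
  have hxd : (x * d : ℚ) ≠ 0 := mul_ne_zero hx hd0
  have hr0 : r ≠ 0 := by
    rintro rfl
    rw [mul_zero] at hr
    apply hxd
    have : ((x * d : ℚ) : ℚ_[p]) = 0 := by push_cast; exact hr
    exact_mod_cast this
  have h1 : (((x * d : ℚ)) : ℚ_[p]).valuation = (r * r).valuation := by
    rw [← hr]
    push_cast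
    rfl
  rw [Padic.valuation_ratCast, Padic.valuation_mul hr0 hr0, padicValRat.mul hx hd0] at h1
  rw [Int.even_iff] at he ⊢
  omega

/-- the classes at the primes without a contribution -/
lemma neup (hp2 : p ≠ 2) {c : Fin 4} {A B : ℤ} (hA0 : A ≠ 0) (hB0 : B ≠ 0) (hAB : A ≠ B)
    (h : NeuM c p A B) {d1 d2 : ℤ} (hd1 : Squarefree d1) (hd2 : Squarefree d2)
    (hL : Loc ℚ_[p] A B d1 d2) : ¬ (p : ℤ) ∣ d1 ∧ ¬ (p : ℤ) ∣ d2 := by
  obtain ⟨x, y, hy, hxy, s1, s2⟩ := hL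
  obtain ⟨D, x', y', hD, hDj, hy', hxy', t1, t2⟩ := Pool.Agent.W407.SE.ratp p A B x y hp2 hy hxy
  have hD0 : D ≠ 0 := by
    rintro rfl
    exact hD (dvd_zero _)
  have hy2 : y ^ 2 ≠ 0 := pow_ne_zero 2 hy
  rw [hxy] at hy2
  have hx : x ≠ 0 := left_ne_zero_of_mul (left_ne_zero_of_mul hy2)
  have hxA : x - A ≠ 0 := right_ne_zero_of_mul (left_ne_zero_of_mul hy2)
  have hy2' : y' ^ 2 ≠ 0 := pow_ne_zero 2 hy'
  rw [hxy'] at hy2'
  have hx' : x' ≠ 0 := left_ne_zero_of_mul (left_ne_zero_of_mul hy2')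
  have hxA' : x' - (A * D : ℤ) ≠ 0 := right_ne_zero_of_mul (left_ne_zero_of_mul hy2')
  obtain ⟨v1, v2⟩ := neum hp2 (mul_ne_zero hA0 hD0) (mul_ne_zero hB0 hD0)
    (fun h => hAB (mul_right_cancel₀ hD0 h)) (NeuM_tw hA0 hB0 hAB hD hDj h) x' y' hy' hxy'
  exact ⟨nd_of_even hx' v1 hd1 (sq_tr hx t1 s1), nd_of_even hxA' v2 hd2 (sq_tr hxA t2 s2)⟩

end loc

section gen

variable {J : Type} [Fintype J] [DecidableEq J]

/-- The bound of the 2-Selmer group by the local count. -/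
theorem sln6 {cls : J → Fin 4} (hcls : ∀ j, cls j ≠ 3) {ty : J → ℕ → Option Ty} {f : J → ℤ}
    {A B : ℤ} {z y D G : ℕ} (hG : G ≠ 0) (hz : 2 ≤ z) (hzy : z < y) (h0 : ∀ j, f j ≠ 0)
    (hA0 : A ≠ 0) (hB0 : B ≠ 0) (hAB : A ≠ B)
    (hun : ∀ p : ℕ, p.Prime → z < p → ∀ j l, (p : ℤ) ∣ f j → (p : ℤ) ∣ f l → j = l)
    (hloc : ∀ p : ℕ, p.Prime → z < p → ∀ j θ, (p : ℤ) ∣ f j → ¬ (p : ℤ) ^ 2 ∣ f j →
      ty j p = some θ → ∃ k : ℤ, ¬ (p : ℤ) ∣ k ∧ LocM (cls j) k p A B ∧ sg0 p k = θ 0)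
    (hneu : ∀ p : ℕ, p.Prime → z < p → ¬ p ∣ G → ∀ j, (p : ℤ) ∣ f j → ty j p = none →
      NeuM (cls j) p A B)
    (hbad : ∀ p : ℕ, p.Prime → z < p → (p : ℤ) ∣ 2 * A * B * (A - B) →
      p ∣ G ∨ ∃ j, (p : ℤ) ∣ f j)
    (hsz : ∀ j, (f j).natAbs < (y + 1) ^ D) :
    (Sel A B).Finite ∧ SN A B ≤
      4 ^ (z + Fintype.card J * D + 2) * 4 ^ G.primeFactors.card *
        4 ^ (∑ i, (S2 z y (prv ty z f) i).primeFactors.card) *
        (NL (∏ i, S1 z y (prv ty z f) i)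
          (LTs (clsI cls) eI (S1 z y (prv ty z f)) ∅) : ℝ) := by
  classical
  set g := prv ty z f with hg
  set s := S1 z y g with hs
  have hmem : s ∈ Tup (J × Ty) z y := by
    apply Pool.Agent.W571.RT.S1_mem
    rintro p hp hzp i i' hii' ⟨h1, h2⟩
    exact (prv_Gd h0 hun).2 p hp hzp i i' hii' ⟨h1, h2⟩
  have hmd : ∏ i, s i ∣ PP z y := Pool.Agent.W262.RK.Tup_prod_dvd hmem
  have hPSof : ∀ p : ℕ, p.Prime → p ∣ ∏ i, s i → p ∈ PS z y := fun p hp h =>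
    (prime_dvd_PP hp).1 (h.trans hmd)
  have hodd2 : ∀ p : ℕ, p.Prime → p ∣ ∏ i, s i → 2 < p := by
    intro p hp h
    have h1 := (mem_PS.1 (hPSof p hp h)).1.1
    omega
  have hcI : ∀ i : J × Ty, clsI cls i ≠ 3 := fun i => hcls i.1
  have hlocm : LOCMP := locmp_of Pool.Agent.W407.SE.ratp
  have hgoodp : GOODP := Pool.Agent.W405.SE.goodp_of Pool.Agent.W407.SE.ratp
  obtain ⟨Nt, hNt⟩ : ∃ Nt : ℕ → Prop, ∀ p, Nt p ↔
      (z < p ∧ ¬ p ∣ G ∧ ∃ j, (p : ℤ) ∣ f j ∧ ty j p = none) :=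
    ⟨_, fun p => Iff.rfl⟩
  obtain ⟨OP, hOP⟩ : ∃ OP : Finset ℕ, OP = (2 * A * B * (A - B)).natAbs.primeFactors.filter
    (fun q => ¬ q ∣ ∏ i, s i ∧ ¬ Nt q) := ⟨_, rfl⟩
  have hD0 : 2 * A * B * (A - B) ≠ 0 :=
    mul_ne_zero (mul_ne_zero (mul_ne_zero two_ne_zero hA0) hB0) (sub_ne_zero.mpr hAB)
  have hd := Pool.Agent.Y669.cnt (Sel A B) OP (∏ i, s i) (LTs (clsI cls) eI s ∅)
    ((PP_squarefree z y).squarefree_of_dvd hmd)
    (fun p hp hpd => ⟨fun i hi => (Pool.Agent.Y474.Z8.LT_xc (hcI i) (eI i) _ _).1,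
      fun a1 b1 c1 d1 a2 b2 c2 d2 e1 e2 i hi =>
        (Pool.Agent.Y474.Z8.LT_xc (hcI i) (eI i) _ _).2 a1 b1 c1 d1 a2 b2 c2 d2 (e1 i hi)
          (e2 i hi)⟩)
    (fun d hd => ⟨hd.1, hd.2.1⟩)
    (fun d hd q hq hqO hqm => by
      haveI : Fact q.Prime := ⟨hq⟩
      by_cases hN : Nt q
      · obtain ⟨hzp, hpG, j, hj, hty⟩ := (hNt q).1 hN
        exact neup (by omega) hA0 hB0 hAB (hneu q hq hzp hpG j hj hty) hd.1 hd.2.1 (hd.2.2.2 q)
      · refine hgoodp q A B d.1 d.2 ?_ hd.1 hd.2.1 (hd.2.2.2 q)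
        intro hqd
        apply hqO
        rw [hOP, Finset.mem_filter, Nat.mem_primeFactors]
        exact ⟨⟨hq, Int.natCast_dvd.mp hqd, Int.natAbs_ne_zero.mpr hD0⟩, hqm, hN⟩)
    (fun d hd p hp hpd i hi => by
      haveI : Fact p.Prime := ⟨hp⟩
      have his := (Pool.Agent.W571.RT.S1_dvd_iff hp).1 hi
      have hzp := (mem_PS.1 his.1).1.1
      have h2p : 2 < p := hodd2 p hp hpd
      have h1 := his.2.1
      rw [hg, prv_dvd h0 i hp hzp] at h1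
      have h2 : ¬ (p : ℤ) ^ 2 ∣ f i.1 := by
        intro h3
        apply his.2.2
        rw [hg, prv_pow h0 i hp hzp two_ne_zero]
        exact ⟨h3, h1.2⟩
      obtain ⟨k, hκ, h3, h4⟩ := hloc p hp hzp i.1 i.2 h1.1 h2 h1.2
      obtain ⟨x', y', hy', hxy', s1, s2⟩ := hd.2.2.2 p
      have hfin := hlocm (clsI cls i) k p A B (hcI i)
        (by omega) hκ hA0 hB0 hAB h3 x' y' hy' hxy' d.1 d.2 hd.1 hd.2.1 s1 s2
      have hdec : decide (p ∈ (∅ : Finset ℕ)) = false := by simp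
      rw [hdec]
      exact Pool.Agent.Y474.Z8.LT_of_LL (hcI i) h4 hfin)
  have hc := Pool.Agent.R421.Z4.bad6 (ty := ty) hG hzy h0 hbad hsz Nt
    (fun p hp hzp hpG j hj hty => (hNt p).2 ⟨hzp, hpG, j, hj, hty⟩)
  rw [← hg, ← hs, ← hOP] at hc
  refine ⟨hd.1, ?_⟩
  have h1 : SN A B ≤ 4 ^ (OP.card + 1) * (NL (∏ i, s i) (LTs (clsI cls) eI s ∅) : ℝ) := by
    have h2 := hd.2
    unfold SN
    exact_mod_cast h2
  refine h1.trans (mul_le_mul_of_nonneg_right ?_ (Nat.cast_nonneg _))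
  rw [← pow_add, ← pow_add]
  exact pow_le_pow_right₀ (by norm_num) (by omega)

end gen

/-- the 2-Selmer group is finite -/
lemma sfin {A B : ℤ} (hA : A ≠ 0) (hB : B ≠ 0) (hAB : A ≠ B) : (Sel A B).Finite :=
  Pool.Agent.W307.SE.sel_fin (Pool.Agent.W612.SE.seld_of
    (Pool.Agent.W405.SE.goodp_of Pool.Agent.W407.SE.ratp)) hA hB hAB

lemma selG_eq (A B : ℤ) : Pool.Agent.TH841.SH.SelG 0 A B = Sel A B := by
  unfold Pool.Agent.TH841.SH.SelG Sel Pool.Agent.TH841.SH.LocC Loc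
  simp only [Int.cast_zero, sub_zero]

/-- the trivial element -/
lemma one_mem (A B : ℤ) : ((1 : ℤ), (1 : ℤ)) ∈ Sel A B := by
  rw [← selG_eq]
  refine ⟨squarefree_one, squarefree_one, ?_, fun p _ => ?_⟩
  · obtain ⟨x, y, h1, h2, h3, h4, -⟩ := Pool.Agent.TH841.SH.pt_real 0 A B
    exact ⟨x, y, h1, h2, by simpa using h3, by simpa using h4⟩
  · obtain ⟨x, y, h1, h2, h3, h4, -⟩ := Pool.Agent.TH841.SH.pt_pad p 0 A B
    exact ⟨x, y, h1, h2, by simpa using h3, by simpa using h4⟩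

lemma one_le_SN {A B : ℤ} (hA : A ≠ 0) (hB : B ≠ 0) (hAB : A ≠ B) : 1 ≤ SN A B := by
  unfold SN
  have h := (Set.ncard_pos (sfin hA hB hAB)).2 ⟨_, one_mem A B⟩
  exact_mod_cast h

end Pool.Agent.R421.SF
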