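import Pool.Agent.R421.SF.Sln

/-!
# Project SF: the average of the powers of the order of the 2-Selmer group over the box
-/

set_option autoImplicit false
set_option linter.all false

namespace Pool.Agent.R421.SF

open Finset Pool.Agent.W262.RK Pool.Agent.W307.RT Pool.Agent.TH841.PT Pool.Agent.R421.UR
open Pool.Agent.R421.HF
open Pool.Agent.W307.SE (SN Sel SN_nonneg)

variable {J : Type} [Fintype J] [DecidableEq J]

/-- the bound of the power of the rank -/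
lemma selA {D : HFam J} (hD : D.OK) {α : ℝ} (hα : 0 ≤ α) (hα1 : α ≤ 1) {z : ℕ}
    (hz : D.z1 ≤ z) (hz2 : 2 ≤ z) {X y k : ℕ} {a b : ℤ} (hab : IsCoprime a b)
    (h0 : ∀ j, D.F a b j ≠ 0) (ha : a.natAbs ≤ X) (hb : b.natAbs ≤ X) (hX : 1 ≤ X) (hzy : z < y)
    (hk : X < (y + 1) ^ k) :
    (SN (D.A a b) (D.B a b)) ^ α ≤
      4 ^ (z + Fintype.card J + 2) * (4 ^ (Fintype.card J * D.dg)) ^ k *
        4 ^ (∑ i, (S2 z y (D.pr z a b) i).primeFactors.card) *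
        NBA α (clsI D.cls) eI (S1 z y (D.pr z a b)) := by
  obtain ⟨hA0, hB0, hAB⟩ := hD.ne a b h0
  have h1 := (sln6 (f := D.F a b) (ty := D.ty) hD.cls3 (D := D.dg * k + 1) (G := 1) one_ne_zero
    hz2 hzy h0 hA0 hB0 hAB
    (fun p hp hzp j l => hD.un p hp (by omega) a b (cop_nd hab hp) j l)
    (fun p hp hzp j θ => hD.loc p hp (by omega) a b hab h0 j θ)
    (fun p hp hzp _ j => hD.neu p hp (by omega) a b hab h0 j)
    (fun p hp hzp h => Or.inr (hD.bad p hp (by omega) a b h))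
    (fun j => by
      have h2 := hD.sz X a b ha hb hX j
      have h3 : X ^ D.dg ≤ ((y + 1) ^ k) ^ D.dg := Nat.pow_le_pow_left hk.le _
      have h4 : 0 < ((y + 1) ^ k) ^ D.dg := by positivity
      calc (D.F a b j).natAbs ≤ D.z1 * X ^ D.dg := h2
        _ ≤ D.z1 * ((y + 1) ^ k) ^ D.dg := Nat.mul_le_mul_left _ h3
        _ < (y + 1) * ((y + 1) ^ k) ^ D.dg := Nat.mul_lt_mul_of_pos_right (by omega) h4
        _ = (y + 1) ^ (D.dg * k + 1) := by rw [← pow_mul, pow_succ, mul_comm k]; ring)).2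
  rw [Nat.primeFactors_one, card_empty, pow_zero, mul_one] at h1
  rw [NBA_eq D.cls hD.cls3]
  have hK1 : (1 : ℝ) ≤ 4 ^ (z + Fintype.card J * (D.dg * k + 1) + 2) *
      4 ^ (∑ i, (S2 z y (D.pr z a b) i).primeFactors.card) :=
    one_le_mul_of_one_le_of_one_le (one_le_pow₀ (by norm_num)) (one_le_pow₀ (by norm_num))
  have h2 := pow_le_K hα hα1 (SN_nonneg _ _) hK1 (Nat.cast_nonneg _) h1
  refine h2.trans (le_of_eq ?_)
  have e : z + Fintype.card J * (D.dg * k + 1) + 2 =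
      (z + Fintype.card J + 2) + (Fintype.card J * D.dg) * k := by ring
  rw [e, pow_add (4 : ℝ) (z + Fintype.card J + 2), pow_mul]
  rfl

open Classical in
/-- **the average over the box** -/
theorem avgGS (D : HFam J) (hD : D.OK) (d σ : J → ℝ) (hd : ∀ j, 0 < d j) (hσ0 : ∀ j, 0 ≤ σ j)
    (hσ : ∀ k : Fin 4, k ≠ 3 → Wc D.cls σ k < Wo D.cls d - Wc D.cls d k)
    (hm : ∃ z0 : ℕ, ∀ z, z0 ≤ z → ∃ C0 E0 : ℝ, Mdl D.cls D.g d σ D.c z C0 E0) :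
    ∃ α : ℝ, 0 < α ∧ α ≤ 1 ∧ ∃ C : ℝ, 0 ≤ C ∧ ∀ T : ℕ, 1 ≤ T →
      ∑ t ∈ (Box T).filter (fun t : ℤ × ℤ => IsCoprime t.1 t.2 ∧ ∀ j, D.F t.1 t.2 j ≠ 0),
        (SN (D.A t.1 t.2) (D.B t.1 t.2)) ^ α ≤
          C * (T : ℝ) ^ 2 := by
  obtain ⟨α, hα0, hα1, hmdl⟩ := mdl_alpha D.cls d σ hd hσ0 hσ
  refine ⟨α, hα0, hα1, ?_⟩
  obtain ⟨z0, hz0⟩ := hm
  obtain ⟨z, hz⟩ : ∃ z : ℕ, z = z0 + D.z1 * (D.κ.natAbs + 1) ^ D.dg + D.z1 + 2 * D.c + 2 :=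
    ⟨_, rfl⟩
  obtain ⟨C0, E0, hM⟩ := hz0 z (by omega)
  obtain ⟨CM, hCM⟩ := hmdl D.g D.c z C0 E0 hM
  obtain ⟨Cc, K, y0, hCc0, hK1, hcn⟩ := cntG D hD z (by omega) (by omega) (by omega)
  -- the rank
  let r : ℤ × ℤ → ℝ := fun t =>
    (SN (D.A t.1 t.2) (D.B t.1 t.2)) ^ α
  have hr0 : ∀ t, 0 ≤ r t := fun t => Real.rpow_nonneg (SN_nonneg _ _) _
  have hgbd : ∀ (i : J × Ty) (p : ℕ), 0 ≤ D.g i p ∧ D.g i p ≤ D.c := fun i p =>
    ⟨D.g_nonneg i p, hD.g_le i p⟩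
  have hcz : D.c < z := by omega
  have hgn : ∀ {y' : ℕ} {s : J × Ty → ℕ} (_ : s ∈ Tup (J × Ty) z y')
      (i : J × Ty), 0 ≤ gp (D.g i) D.c (s i) := fun hs i =>
    gp_nonnegG hcz i ((Pool.Agent.W372.RK2.mem_Tup'.1 hs).1 i)
  suffices key : ∃ C2 : ℝ, ∀ θ : {n : ℕ // 1 ≤ n}, ∑ t ∈ (Box θ.1).filter (fun t : ℤ × ℤ =>
      IsCoprime t.1 t.2 ∧ ∀ j, D.F t.1 t.2 j ≠ 0), r t ≤ C2 * ((θ.1 : ℝ) ^ 2) by
    obtain ⟨C2, hC2⟩ := key
    refine ⟨max C2 0, le_max_right _ _, fun T hT => ?_⟩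
    exact (hC2 ⟨T, hT⟩).trans (mul_le_mul_of_nonneg_right (le_max_left _ _) (by positivity))
  refine Pool.Agent.Y455.Z8.antx (J × Ty) (ℤ × ℤ) {n : ℕ // 1 ≤ n}
    (fun θ => (Box θ.1).filter (fun t : ℤ × ℤ => IsCoprime t.1 t.2 ∧ ∀ j, D.F t.1 t.2 j ≠ 0))
    (fun θ => θ.1) (fun _ t => D.pr z t.1 t.2) (fun θ => (θ.1 : ℝ) ^ 2) z
    (fun y => Real.exp (∑ j, Sp (rs D.g j) z y))
    (fun s => NBA α (clsI D.cls) eI s * ∏ i, gp (D.g i) D.c (s i))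
    (fun v => ∏ i, ((4 : ℝ) ^ (v i).primeFactors.card * (gp (D.g i) D.c (v i) / v i)))
    (fun w => ∏ i, ((D.c : ℝ) ^ (w i).primeFactors.card / (w i : ℝ)))
    (fun _ t => r t) (Cc * 4 ^ (z + Fintype.card J + 2)) (4 ^ (Fintype.card J * D.dg)) K y0
    (by omega) (fun y hy => Real.exp_pos _)
    (fun θ => θ.2) (fun θ => by positivity) (fun X0 => ?_) (fun θ t ht => ?_)
    (fun θ t => hr0 _) (by positivity) (one_le_pow₀ (by norm_num)) hK1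
    (fun y s hs => ⟨?_, ?_⟩) (fun y Y hzy w hw => ?_) (fun lam hlam => ?_)
    (fun lam hlam => ?_) (fun lam hlam => ?_) ?_
  · -- small scales
    refine ⟨∑ t ∈ Box X0, r t, ?_⟩
    rintro ⟨X, hX⟩ hle
    simp only at hle ⊢
    have e1 : ∑ t ∈ (Box X).filter (fun t : ℤ × ℤ =>
        IsCoprime t.1 t.2 ∧ ∀ j, D.F t.1 t.2 j ≠ 0), r t ≤ ∑ t ∈ Box X0, r t := by
      refine sum_le_sum_of_subset_of_nonneg ?_ fun t _ _ => hr0 _
      intro t ht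
      have h4 := mem_Box.1 (mem_filter.1 ht).1
      exact mem_Box.2 ⟨h4.1.trans hle, h4.2.trans hle⟩
    have e2 : (1 : ℝ) ≤ (X : ℝ) ^ 2 := one_le_pow₀ (by exact_mod_cast hX)
    exact e1.trans (le_mul_of_one_le_right (sum_nonneg fun _ _ => hr0 _) e2)
  · have h4 := (mem_filter.1 ht).2
    exact prv_Gd h4.2 (fun p hp hzp j l => hD.un p hp (by omega) _ _ (cop_nd h4.1 hp) j l)
  · exact mul_nonneg (NBA_nonneg _ _ _) (prod_nonneg fun i _ => hgn hs i)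
  · exact prod_nonneg fun i _ => mul_nonneg (by positivity)
      (div_nonneg (hgn hs i) (Nat.cast_nonneg _))
  · exact prod_nonneg fun i _ => by positivity
  · -- the first sum
    obtain ⟨A, hA⟩ := RSPf.rsp (J × Ty) z D.c D.g (NBA α (clsI D.cls) eI)
      (fun y => CM * Real.exp (∑ j, Sp (rs D.g j) z y)) 4 lam (by omega) hgbd (by norm_num) hlam
      (NBA_nonneg _ _)
      (fun y hy s e' hse => suba hα0.le hα1 (clsI D.cls) eI z y s e' hse)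
      (fun y hy => hCM y hy)
    refine ⟨A * CM, fun y hy => ?_⟩
    have := hA y hy
    rw [mul_assoc]
    exact this
  · exact RVU.rvp (J × Ty) z D.c D.g 4 lam (by omega) hgbd (by norm_num) hlam
  · exact RVU.rup (J × Ty) (D.c : ℝ) lam (by exact_mod_cast hD.c1) hlam
  -- the local majorant
  rintro ⟨X, hX1⟩ y Y k hy0 hzy hyK hk s hs v hv w hw h8 T' hT' hval
  simp only at hyK hk h8 hT' hval ⊢
  obtain ⟨W, hW⟩ : ∃ W : ℝ, W = 4 ^ (z + Fintype.card J + 2) *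
      (4 ^ (Fintype.card J * D.dg)) ^ k * 4 ^ (∑ i, (v i).primeFactors.card) *
      NBA α (clsI D.cls) eI s := ⟨_, rfl⟩
  have hW0 : 0 ≤ W := by
    rw [hW]
    exact mul_nonneg (by positivity) (NBA_nonneg _ _ _)
  have e1 : ∀ t ∈ T', r t ≤ W := by
    intro t ht
    have h4 := mem_filter.1 (hT' ht)
    obtain ⟨hts, htv, _⟩ := hval t ht
    have h5 := mem_Box.1 h4.1
    have h6 := selA hD hα0.le hα1 (z := z) (by omega) (by omega) h4.2.1 h4.2.2 h5.1 h5.2 hX1 hzy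
      hk
    rw [hts, htv] at h6
    rw [hW]
    exact h6
  have e3 : (T'.card : ℝ) ≤ Cc * X ^ 2 * RWG D s v w * D.E z y := by
    refine le_trans ?_ (hcn X y Y hy0 hzy hyK s hs v hv w hw h8)
    have h4 : T' ⊆ (Box X).filter (fun t : ℤ × ℤ => GG D z y s v w t.1 t.2) := by
      intro t ht
      have h5 := mem_filter.1 (hT' ht)
      have h6 := hval t ht
      exact mem_filter.2 ⟨h5.1, ⟨h5.2.1, h5.2.2, h6.1, h6.2.1, h6.2.2⟩⟩
    exact_mod_cast card_le_card h4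
  calc ∑ t ∈ T', r t ≤ ∑ _t ∈ T', W := sum_le_sum e1
    _ = (T'.card : ℝ) * W := by rw [sum_const, nsmul_eq_mul]
    _ ≤ _ := mul_le_mul_of_nonneg_right e3 hW0
    _ = _ := by
        rw [hW, prod_mul_distrib (f := fun i => (4 : ℝ) ^ (v i).primeFactors.card),
          prod_pow_eq_pow_sum, E_eq hD]
        unfold RWG
        rw [div_eq_mul_inv _ (Real.exp _)]
        ring

/-- **the average over a subset of the box** -/
theorem avgSS (D : HFam J) (hD : D.OK) (d σ : J → ℝ) (hd : ∀ j, 0 < d j) (hσ0 : ∀ j, 0 ≤ σ j)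
    (hσ : ∀ k : Fin 4, k ≠ 3 → Wc D.cls σ k < Wo D.cls d - Wc D.cls d k)
    (hm : ∃ z0 : ℕ, ∀ z, z0 ≤ z → ∃ C0 E0 : ℝ, Mdl D.cls D.g d σ D.c z C0 E0) :
    ∃ α : ℝ, 0 < α ∧ α ≤ 1 ∧ ∃ C : ℝ, 0 ≤ C ∧ ∀ T : ℕ, 1 ≤ T → ∀ S : Finset (ℤ × ℤ),
      S ⊆ Box T → (∀ t ∈ S, IsCoprime t.1 t.2 ∧ ∀ j, D.F t.1 t.2 j ≠ 0) →
      ∑ t ∈ S,
        (SN (D.A t.1 t.2) (D.B t.1 t.2)) ^ α ≤
          C * (T : ℝ) ^ 2 := by
  classical
  obtain ⟨α, h1, h2, C, h3, h4⟩ := avgGS D hD d σ hd hσ0 hσ hm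
  refine ⟨α, h1, h2, C, h3, fun T hT S hS hS2 => ?_⟩
  refine le_trans (sum_le_sum_of_subset_of_nonneg ?_ fun t _ _ =>
    Real.rpow_nonneg (SN_nonneg _ _) _) (h4 T hT)
  intro t ht
  exact mem_filter.2 ⟨hS ht, hS2 t ht⟩

end Pool.Agent.R421.SF
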